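import Pool.Agent.Lib.MP_bfe17a_co.Defs

open Set

namespace Pool.Agent.Lib.MP_bfe17a_co

variable {V : Type*} {G : SimpleGraph V}

lemma SameComp.refl {B : Set V} {w : V} (h : w ∉ B) : SameComp G B w w :=
  ⟨h, h, SimpleGraph.Reachable.refl _⟩

lemma SameComp.of_adj {B : Set V} {w w' : V} (h : w ∉ B) (h' : w' ∉ B) (hadj : G.Adj w w') :
    SameComp G B w w' :=
  ⟨h, h', SimpleGraph.Adj.reachable (G := G.induce Bᶜ) (by exact hadj)⟩

lemma SameComp.trans {B : Set V} {a b c : V} (h1 : SameComp G B a b) (h2 : SameComp G B b c) :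
    SameComp G B a c := by
  obtain ⟨ha, hb, hab⟩ := h1
  obtain ⟨hb', hc, hbc⟩ := h2
  exact ⟨ha, hc, hab.trans hbc⟩

lemma SameComp.right {B : Set V} {a b : V} (h1 : SameComp G B a b) : b ∉ B := h1.2.1

/-- Components shrink when the blue set grows. -/
lemma SameComp.anti {B B' : Set V} (hB : B ⊆ B') {a b : V} (h : SameComp G B' a b) :
    SameComp G B a b := by
  obtain ⟨ha, hb, hab⟩ := h
  have hsub : B'ᶜ ⊆ Bᶜ := compl_subset_compl.mpr hB
  refine ⟨hsub ha, hsub hb, ?_⟩
  exact hab.map (SimpleGraph.induceHomOfLE G hsub).toHom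

lemma Forces.mono {B B' : Set V} (hB : B ⊆ B') {u w : V} (h : Forces G B u w) (hw : w ∉ B') :
    Forces G B' u w :=
  ⟨hB h.1, hw, h.2.2.1, fun w' hw' hadj => h.2.2.2 w' (hw'.anti hB) hadj⟩

/-- A white vertex all of whose neighbours are blue is alone in its component. -/
lemma sameComp_isolated {B : Set V} {y w' : V} (hy : ∀ z, G.Adj y z → z ∈ B)
    (h : SameComp G B y w') : w' = y := by
  obtain ⟨ha, hb, ⟨p⟩⟩ := h
  cases p with
  | nil => rfl
  | cons hadj q =>
    rename_i v
    exact absurd (hy v.1 hadj) v.2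

/-- One-at-a-time reachability of blue sets. -/
abbrev Steps (G : SimpleGraph V) : Set V → Set V → Prop :=
  Relation.ReflTransGen (fun B B' : Set V => ∃ u w, Forces G B u w ∧ B' = insert w B)

lemma steps_of_finite (B : Set V) (F : Set V) (hF : F.Finite)
    (h : ∀ w ∈ F, w ∈ B ∨ ∃ u, Forces G B u w) : Steps G B (B ∪ F) := by
  induction F, hF using Set.Finite.induction_on with
  | empty => rw [union_empty]
  | @insert a F ha _ ih =>
    have h1 := ih (fun w hw => h w (mem_insert_of_mem _ hw))
    by_cases hmem : a ∈ B ∪ F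
    · have : B ∪ insert a F = B ∪ F := by
        rw [union_insert, insert_eq_of_mem hmem]
      rw [this]
      exact h1
    · rcases h a (mem_insert _ _) with hB | ⟨u, hu⟩
      · exact absurd (Or.inl hB) hmem
      · refine h1.tail ⟨u, a, hu.mono subset_union_left hmem, ?_⟩
        rw [union_insert]

lemma steps_blue [Finite V] (S : Set V) (t : ℕ) : Steps G S (blue G S t) := by
  induction t with
  | zero => exact Relation.ReflTransGen.refl
  | succ t ih =>
    refine ih.trans ?_
    apply steps_of_finite _ _ (Set.toFinite _)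
    intro w hw
    exact Or.inr hw

lemma isForcing_of_blue [Finite V] {S : Set V} {t : ℕ} (h : blue G S t = univ) :
    IsForcing G S := by
  have := steps_blue (G := G) S t
  rw [h] at this
  exact this

lemma blue_mono_succ (S : Set V) (t : ℕ) : blue G S t ⊆ blue G S (t + 1) := subset_union_left

lemma blue_mono (S : Set V) {t t' : ℕ} (h : t ≤ t') : blue G S t ⊆ blue G S t' := by
  induction h with
  | refl => exact Subset.rfl
  | step _ ih => exact ih.trans (blue_mono_succ S _)

/-- Sanity check: a PSD zero forcing set turns everything blue in finitely many time steps. -/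
lemma exists_blue_of_isForcing {S : Set V} (h : IsForcing G S) : ∃ t, blue G S t = univ := by
  have key : ∀ B, Steps G S B → ∃ t, B ⊆ blue G S t := by
    intro B hB
    induction hB with
    | refl => exact ⟨0, Subset.rfl⟩
    | @tail B B' _ hstep ih =>
      obtain ⟨t, ht⟩ := ih
      obtain ⟨u, w, hf, rfl⟩ := hstep
      refine ⟨t + 1, ?_⟩
      intro x hx
      rcases hx with rfl | hx
      · by_cases hw : x ∈ blue G S t
        · exact Or.inl hw
        · exact Or.inr ⟨u, hf.mono ht hw⟩
      · exact Or.inl (ht hx)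
  obtain ⟨t, ht⟩ := key univ h
  exact ⟨t, univ_subset_iff.mp ht⟩

/-- A PSD zero forcing set other than the whole vertex set admits a force. -/
lemma IsForcing.exists_force {S : Set V} (h : IsForcing G S) (hS : S ≠ univ) :
    ∃ u w, Forces G S u w := by
  rcases Relation.ReflTransGen.cases_head h with h | ⟨B, ⟨u, w, hf, _⟩, _⟩
  · exact absurd h hS
  · exact ⟨u, w, hf⟩

end Pool.Agent.Lib.MP_bfe17a_co
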