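import Mathlib

namespace Pool.Agent.Lib.MP_bfe17a_co

variable {V : Type*}

/-- `w` and `w'` are white vertices in the same connected component of `G - B`. -/
def SameComp (G : SimpleGraph V) (B : Set V) (w w' : V) : Prop :=
  ∃ (hw : w ∈ Bᶜ) (hw' : w' ∈ Bᶜ), (G.induce Bᶜ).Reachable ⟨w, hw⟩ ⟨w', hw'⟩

/-- The PSD colour change rule: with current blue set `B`, the blue vertex `u` may force the
white vertex `w`, i.e. `w` is the only white neighbour of `u` in the component of `G - B`
containing `w`. -/
def Forces (G : SimpleGraph V) (B : Set V) (u w : V) : Prop :=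
  u ∈ B ∧ w ∉ B ∧ G.Adj u w ∧ ∀ w', SameComp G B w w' → G.Adj u w' → w' = w

/-- `S` is a PSD zero forcing set: repeated application of the rule, one force at a time, can
turn every vertex blue. -/
def IsForcing (G : SimpleGraph V) (S : Set V) : Prop :=
  Relation.ReflTransGen (fun B B' : Set V => ∃ u w, Forces G B u w ∧ B' = insert w B) S Set.univ

/-- The PSD zero forcing number. -/
noncomputable def Zplus (G : SimpleGraph V) : ℕ :=
  sInf {m | ∃ S : Set V, IsForcing G S ∧ S.ncard = m}

/-- Minimum PSD zero forcing sets. -/
def IsMinForcing (G : SimpleGraph V) (S : Set V) : Prop :=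
  IsForcing G S ∧ S.ncard = Zplus G

/-- The set of blue vertices after `t` simultaneous time steps. -/
def blue (G : SimpleGraph V) (S : Set V) : ℕ → Set V
  | 0 => S
  | t + 1 => blue G S t ∪ {w | ∃ u, Forces G (blue G S t) u w}

/-- The propagation time of `S`: the least `t` such that all vertices are blue after `t`
time steps. -/
noncomputable def propTime (G : SimpleGraph V) (S : Set V) : ℕ :=
  sInf {t | blue G S t = Set.univ}

/-- The minimum propagation time over all minimum PSD zero forcing sets. -/
noncomputable def ptMin (G : SimpleGraph V) : ℕ :=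
  sInf {t | ∃ S : Set V, IsMinForcing G S ∧ propTime G S = t}

/-- The maximum propagation time over all minimum PSD zero forcing sets. -/
noncomputable def ptMax (G : SimpleGraph V) : ℕ :=
  sSup {t | ∃ S : Set V, IsMinForcing G S ∧ propTime G S = t}

end Pool.Agent.Lib.MP_bfe17a_co
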