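import Pool.Agent.Lib.MP_bfe17a_co.Basic

open Set

namespace Pool.Agent.Lib.MP_bfe17a_co

/-- The join of `s` isolated vertices (`0, …, s-1`) and a path on `s+1` vertices
(`s, s+1, …, 2s`). -/
def gr (s : ℕ) : SimpleGraph (Fin (2 * s + 1)) where
  Adj i j := ((i : ℕ) < s ∧ s ≤ (j : ℕ)) ∨ ((j : ℕ) < s ∧ s ≤ (i : ℕ)) ∨
    (s ≤ (i : ℕ) ∧ s ≤ (j : ℕ) ∧ ((i : ℕ) + 1 = j ∨ (j : ℕ) + 1 = i))
  symm := ⟨fun i j h => by omega⟩
  loopless := ⟨fun i h => by omega⟩

lemma gr_adj {s : ℕ} {i j : Fin (2 * s + 1)} : (gr s).Adj i j ↔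
    ((i : ℕ) < s ∧ s ≤ (j : ℕ)) ∨ ((j : ℕ) < s ∧ s ≤ (i : ℕ)) ∨
    (s ≤ (i : ℕ) ∧ s ≤ (j : ℕ) ∧ ((i : ℕ) + 1 = j ∨ (j : ℕ) + 1 = i)) := Iff.rfl

variable {s : ℕ}

/-- The isolated vertices. -/
def AA (s : ℕ) : Set (Fin (2 * s + 1)) := {i | (i : ℕ) < s}

/-- The path vertices. -/
def PP (s : ℕ) : Set (Fin (2 * s + 1)) := {i | s ≤ (i : ℕ)}

lemma mem_AA {i : Fin (2 * s + 1)} : i ∈ AA s ↔ (i : ℕ) < s := Iff.rfl
lemma mem_PP {i : Fin (2 * s + 1)} : i ∈ PP s ↔ s ≤ (i : ℕ) := Iff.rfl

lemma compl_AA (s : ℕ) : (AA s)ᶜ = PP s := by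
  ext i
  rw [mem_compl_iff, mem_AA, mem_PP, not_lt]

lemma ncard_AA (s : ℕ) : (AA s).ncard = s := by
  have h : AA s = Set.range (fun t : Fin s => (⟨t, by omega⟩ : Fin (2 * s + 1))) := by
    ext i
    rw [mem_AA, mem_range]
    constructor
    · intro h; exact ⟨⟨i, h⟩, rfl⟩
    · rintro ⟨t, rfl⟩; exact t.2
  rw [h, ← Set.image_univ, Set.ncard_image_of_injective, Set.ncard_univ, Nat.card_eq_fintype_card,
    Fintype.card_fin]
  intro a b hab
  simp only [Fin.mk.injEq] at hab
  exact Fin.ext hab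

lemma ncard_PP (s : ℕ) : (PP s).ncard = s + 1 := by
  have h1 := Set.ncard_add_ncard_compl (AA s)
  rw [compl_AA, ncard_AA, Nat.card_eq_fintype_card, Fintype.card_fin] at h1
  omega

/-- Counting data of a set of vertices. -/
lemma counts (S : Set (Fin (2 * s + 1))) :
    (S ∩ AA s).ncard + (AA s \ S).ncard = s ∧ (S ∩ PP s).ncard + (PP s \ S).ncard = s + 1 ∧
      (S ∩ AA s).ncard + (S ∩ PP s).ncard = S.ncard := by
  refine ⟨?_, ?_, ?_⟩
  · have := Set.ncard_inter_add_ncard_sdiff_eq_ncard (AA s) S (Set.toFinite _)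
    rw [ncard_AA, Set.inter_comm] at this
    exact this
  · have := Set.ncard_inter_add_ncard_sdiff_eq_ncard (PP s) S (Set.toFinite _)
    rw [ncard_PP, Set.inter_comm] at this
    exact this
  · have := Set.ncard_inter_add_ncard_sdiff_eq_ncard S (AA s) (Set.toFinite _)
    rw [Set.sdiff_eq, compl_AA] at this
    exact this

/-- A forced path vertex has a blue neighbour on the path. -/
lemma forced_path (hs : 1 ≤ s) {B : Set (Fin (2 * s + 1))} {u w : Fin (2 * s + 1)}
    (h : Forces (gr s) B u w) (hw : s ≤ (w : ℕ)) :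
    ∃ w' : Fin (2 * s + 1), s ≤ (w' : ℕ) ∧ w' ∈ B ∧ ((w : ℕ) + 1 = w' ∨ (w' : ℕ) + 1 = w) := by
  obtain ⟨huB, hwB, hadj, huniq⟩ := h
  by_cases hu : s ≤ (u : ℕ)
  · refine ⟨u, hu, huB, ?_⟩
    rw [gr_adj] at hadj
    omega
  · -- a path neighbour of `w`
    obtain ⟨w', hw's, hw'adj⟩ : ∃ w' : Fin (2 * s + 1), s ≤ (w' : ℕ) ∧
        ((w : ℕ) + 1 = w' ∨ (w' : ℕ) + 1 = w) := by
      by_cases hlast : (w : ℕ) < 2 * s
      · exact ⟨⟨w + 1, by omega⟩, by simp only; omega, Or.inl rfl⟩
      · have := w.2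
        exact ⟨⟨w - 1, by omega⟩, by simp only; omega, Or.inr (by simp only; omega)⟩
    by_cases hB : w' ∈ B
    · exact ⟨w', hw's, hB, hw'adj⟩
    · exfalso
      have hww' : (gr s).Adj w w' := by rw [gr_adj]; omega
      have huw' : (gr s).Adj u w' := by rw [gr_adj]; omega
      have := huniq w' (SameComp.of_adj hwB hB hww') huw'
      rw [this] at hww'
      exact (gr s).loopless.irrefl _ hww'

/-- The blue part of the path grows by at most one on each side in each step. -/
lemma blue_ball (hs : 1 ≤ s) (S : Set (Fin (2 * s + 1))) (x ρ : ℕ)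
    (hS : ∀ y ∈ S, s ≤ (y : ℕ) → (y : ℕ) ≤ x + ρ ∧ x ≤ y + ρ) (t : ℕ) :
    ∀ y ∈ blue (gr s) S t, s ≤ (y : ℕ) → (y : ℕ) ≤ x + (ρ + t) ∧ x ≤ y + (ρ + t) := by
  induction t with
  | zero => intro y hy hys; exact hS y hy hys
  | succ t ih =>
    intro y hy hys
    rcases hy with hy | ⟨u, hu⟩
    · have := ih y hy hys; omega
    · obtain ⟨w', hw's, hw'B, hw'⟩ := forced_path hs hu hys
      have := ih w' hw'B hw's
      omega

/-- If both sides have white vertices, the white graph is connected. -/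
lemma white_connected {B : Set (Fin (2 * s + 1))} {y x : Fin (2 * s + 1)} (hy : (y : ℕ) < s)
    (hyB : y ∉ B) (hx : s ≤ (x : ℕ)) (hxB : x ∉ B) {v w : Fin (2 * s + 1)} (hv : v ∉ B)
    (hw : w ∉ B) : SameComp (gr s) B v w := by
  have hxy : SameComp (gr s) B x y := SameComp.of_adj hxB hyB (by rw [gr_adj]; omega)
  have hyx : SameComp (gr s) B y x := SameComp.of_adj hyB hxB (by rw [gr_adj]; omega)
  have h1 : ∀ v, v ∉ B → SameComp (gr s) B v x ∧ SameComp (gr s) B x v := by
    intro v hv
    by_cases hvs : (v : ℕ) < s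
    · exact ⟨SameComp.of_adj hv hxB (by rw [gr_adj]; omega),
        SameComp.of_adj hxB hv (by rw [gr_adj]; omega)⟩
    · have e1 : SameComp (gr s) B v y := SameComp.of_adj hv hyB (by rw [gr_adj]; omega)
      have e2 : SameComp (gr s) B y v := SameComp.of_adj hyB hv (by rw [gr_adj]; omega)
      exact ⟨e1.trans hyx, hxy.trans e2⟩
  exact (h1 v hv).1.trans (h1 w hw).2

/-- The structure of sets admitting a force. -/
lemma force_structure (hs : 2 ≤ s) {S : Set (Fin (2 * s + 1))} {u w : Fin (2 * s + 1)}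
    (h : Forces (gr s) S u w) (hc : S.ncard ≤ s + 1) :
    S.ncard = s + 1 ∧
      ((∃ x : ℕ, ∀ y ∈ S, s ≤ (y : ℕ) → (y : ℕ) ≤ x + 0 ∧ x ≤ y + 0) ∨
       (PP s ⊆ S) ∨
       ((u : ℕ) < s ∧ s ≤ (w : ℕ) ∧ ∀ y : Fin (2 * s + 1), s ≤ (y : ℕ) → y ∉ S → y = w) ∨
       (((u : ℕ) = s ∨ (u : ℕ) = 2 * s) ∧
          ∀ y ∈ S, s ≤ (y : ℕ) → (y : ℕ) ≤ u + 1 ∧ (u : ℕ) ≤ y + 1)) := by
  obtain ⟨c1, c2, c3⟩ := counts S
  obtain ⟨huS, hwS, hadj, huniq⟩ := id h
  by_cases hA : AA s ⊆ S
  · -- all of `A` is blue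
    have ha' : (AA s \ S).ncard = 0 := by
      rw [Set.sdiff_eq_empty.mpr hA, Set.ncard_empty]
    have hws : s ≤ (w : ℕ) := by
      by_contra hcon
      exact hwS (hA (by rw [mem_AA]; omega))
    obtain ⟨w', hw's, hw'S, _⟩ := forced_path (by omega) h hws
    have hpos : 0 < (S ∩ PP s).ncard := (Set.ncard_pos (Set.toFinite _)).mpr ⟨w', hw'S, hw's⟩
    refine ⟨by omega, Or.inl ?_⟩
    have h1 : (S ∩ PP s).ncard = 1 := by omega
    obtain ⟨x, hx⟩ := Set.ncard_eq_one.mp h1
    refine ⟨x, fun y hy hys => ?_⟩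
    have : y ∈ S ∩ PP s := ⟨hy, hys⟩
    rw [hx, mem_singleton_iff] at this
    rw [this]
    omega
  · obtain ⟨y, hyA, hyS⟩ := Set.not_subset.mp hA
    rw [mem_AA] at hyA
    by_cases hP : PP s ⊆ S
    · have hb' : (PP s \ S).ncard = 0 := by
        rw [Set.sdiff_eq_empty.mpr hP, Set.ncard_empty]
      exact ⟨by omega, Or.inr (Or.inl hP)⟩
    · obtain ⟨x, hxP, hxS⟩ := Set.not_subset.mp hP
      rw [mem_PP] at hxP
      have huniq' : ∀ w', w' ∉ S → (gr s).Adj u w' → w' = w := fun w' hw' hadj' =>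
        huniq w' (white_connected hyA hyS hxP hxS hwS hw') hadj'
      by_cases hu : (u : ℕ) < s
      · -- `u` is an isolated vertex
        have hpw : ∀ z : Fin (2 * s + 1), s ≤ (z : ℕ) → z ∉ S → z = w := fun z hz hzS =>
          huniq' z hzS (by rw [gr_adj]; omega)
        have hws : s ≤ (w : ℕ) := by rw [gr_adj] at hadj; omega
        have hb' : (PP s \ S).ncard ≤ 1 := by
          rw [Set.ncard_le_one (Set.toFinite _)]
          intro a ha b hb
          rw [hpw a ha.1 ha.2, hpw b hb.1 hb.2]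
        have hpos : 0 < (S ∩ AA s).ncard := (Set.ncard_pos (Set.toFinite _)).mpr ⟨u, huS, hu⟩
        exact ⟨by omega, Or.inr (Or.inr (Or.inl ⟨hu, hws, hpw⟩))⟩
      · -- `u` is a path vertex
        push Not at hu
        have haw : ∀ z : Fin (2 * s + 1), (z : ℕ) < s → z ∉ S → z = w := fun z hz hzS =>
          huniq' z hzS (by rw [gr_adj]; omega)
        have hwy : y = w := haw y hyA hyS
        have ha' : (AA s \ S).ncard ≤ 1 := by
          rw [Set.ncard_le_one (Set.toFinite _)]
          intro a ha b hb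
          rw [haw a ha.1 ha.2, haw b hb.1 hb.2]
        -- path neighbours of `u` are blue
        have hpn : ∀ z : Fin (2 * s + 1), s ≤ (z : ℕ) → ((u : ℕ) + 1 = z ∨ (z : ℕ) + 1 = u) →
            z ∈ S := by
          intro z hz hzu
          by_contra hzS
          have := huniq' z hzS (by rw [gr_adj]; omega)
          rw [this, ← hwy] at hz
          omega
        have hupos : u ∈ S ∩ PP s := ⟨huS, hu⟩
        have hapos : (AA s \ S).ncard = 1 := by
          have : 0 < (AA s \ S).ncard :=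
            (Set.ncard_pos (Set.toFinite _)).mpr ⟨y, hyA, hyS⟩
          omega
        -- a path neighbour
        obtain ⟨z, hzs, hzu⟩ : ∃ z : Fin (2 * s + 1), s ≤ (z : ℕ) ∧
            ((u : ℕ) + 1 = z ∨ (z : ℕ) + 1 = u) := by
          by_cases hlast : (u : ℕ) < 2 * s
          · exact ⟨⟨u + 1, by omega⟩, by simp only; omega, Or.inl rfl⟩
          · have := u.2
            exact ⟨⟨u - 1, by omega⟩, by simp only; omega, Or.inr (by simp only; omega)⟩
        have hzS := hpn z hzs hzu
        have hzne : u ≠ z := by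
          intro h; rw [h] at hzu; omega
        have h2 : 2 ≤ (S ∩ PP s).ncard := by
          have hpair := Set.ncard_pair hzne
          have hle : ({u, z} : Set (Fin (2 * s + 1))).ncard ≤ (S ∩ PP s).ncard := by
            apply Set.ncard_le_ncard _ (Set.toFinite _)
            intro v hv
            rcases hv with rfl | hv
            · exact hupos
            · rw [mem_singleton_iff.mp hv]; exact ⟨hzS, hzs⟩
          omega
        have hb2 : (S ∩ PP s).ncard = 2 := by omega
        have hSP : ∀ v ∈ S, s ≤ (v : ℕ) → v = u ∨ v = z := by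
          have hsub : ({u, z} : Set (Fin (2 * s + 1))) ⊆ S ∩ PP s := by
            intro v hv
            rcases hv with rfl | hv
            · exact hupos
            · rw [mem_singleton_iff.mp hv]; exact ⟨hzS, hzs⟩
          have heq := Set.eq_of_subset_of_ncard_le hsub (by rw [hb2, Set.ncard_pair hzne])
            (Set.toFinite _)
          intro v hv hvs
          have : v ∈ S ∩ PP s := ⟨hv, hvs⟩
          rw [← heq] at this
          exact this
        refine ⟨by omega, Or.inr (Or.inr (Or.inr ⟨?_, ?_⟩))⟩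
        · by_contra hcon
          push Not at hcon
          have hul : (u : ℕ) < 2 * s := by have := u.2; omega
          have e1 := hSP ⟨u + 1, by omega⟩ (hpn ⟨u + 1, by omega⟩ (by simp only; omega)
            (Or.inl rfl)) (by simp only; omega)
          have e2 := hSP ⟨u - 1, by omega⟩ (hpn ⟨u - 1, by omega⟩ (by simp only; omega)
            (Or.inr (by simp only; omega))) (by simp only; omega)
          rcases e1 with e1 | e1
          · have := congrArg Fin.val e1; simp only at this; omega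
          · rcases e2 with e2 | e2
            · have := congrArg Fin.val e2; simp only at this; omega
            · have e1' := congrArg Fin.val e1
              have e2' := congrArg Fin.val e2
              simp only at e1' e2'
              omega
        · intro v hv hvs
          rcases hSP v hv hvs with rfl | rfl
          · omega
          · omega

/-- If all path vertices are blue at time `t`, everything is blue at time `t+1`. -/
lemma blue_of_path {S : Set (Fin (2 * s + 1))} {t : ℕ} (h : PP s ⊆ blue (gr s) S t) :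
    blue (gr s) S (t + 1) = univ := by
  rw [eq_univ_iff_forall]
  intro y
  by_cases hy : y ∈ blue (gr s) S t
  · exact Or.inl hy
  · right
    have hys : (y : ℕ) < s := by
      by_contra hcon
      exact hy (h (by rw [mem_PP]; omega))
    let u : Fin (2 * s + 1) := ⟨2 * s, by omega⟩
    have hu : u ∈ blue (gr s) S t := h (by rw [mem_PP]; simp only [u]; omega)
    refine ⟨u, hu, hy, ?_, ?_⟩
    · rw [gr_adj]; simp only [u]; omega
    · intro w' hw' _
      apply sameComp_isolated _ hw'
      intro z hz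
      apply h
      rw [mem_PP]
      rw [gr_adj] at hz
      omega

/-- The set of path vertices. -/
lemma blue_PP (s : ℕ) : blue (gr s) (PP s) 1 = univ := blue_of_path (t := 0) Subset.rfl

/-- The second set: all isolated vertices and one end of the path. -/
def QQ (s : ℕ) : Set (Fin (2 * s + 1)) := {i | (i : ℕ) ≤ s}

lemma ncard_QQ (s : ℕ) : (QQ s).ncard = s + 1 := by
  have h : QQ s = Set.range (fun t : Fin (s + 1) => (⟨t, by omega⟩ : Fin (2 * s + 1))) := by
    ext i
    simp only [QQ, Set.mem_setOf_eq, mem_range]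
    constructor
    · intro h; exact ⟨⟨i, by omega⟩, rfl⟩
    · rintro ⟨t, rfl⟩; have := t.2; simp only; omega
  rw [h, ← Set.image_univ, Set.ncard_image_of_injective, Set.ncard_univ, Nat.card_eq_fintype_card,
    Fintype.card_fin]
  intro a b hab
  simp only [Fin.mk.injEq] at hab
  exact Fin.ext hab

lemma blue_QQ (s t : ℕ) : ∀ y : Fin (2 * s + 1), (y : ℕ) ≤ s + t → y ∈ blue (gr s) (QQ s) t := by
  induction t with
  | zero => intro y hy; exact hy
  | succ t ih =>
    intro y hy
    by_cases hyt : (y : ℕ) ≤ s + t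
    · exact Or.inl (ih y hyt)
    · by_cases hyB : y ∈ blue (gr s) (QQ s) t
      · exact Or.inl hyB
      · right
        let u : Fin (2 * s + 1) := ⟨s + t, by have := y.2; omega⟩
        refine ⟨u, ih u (by simp only [u]; omega), hyB, ?_, ?_⟩
        · rw [gr_adj]; simp only [u]; omega
        · intro w' hw' hadj
          have hw'B := hw'.right
          have hw't : ¬ (w' : ℕ) ≤ s + t := fun h => hw'B (ih w' h)
          rw [gr_adj] at hadj
          simp only [u] at hadj
          apply Fin.ext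
          omega

lemma Zplus_gr (hs : 2 ≤ s) : Zplus (gr s) = s + 1 := by
  unfold Zplus
  apply le_antisymm
  · apply Nat.sInf_le
    exact ⟨PP s, isForcing_of_blue (blue_PP s), ncard_PP s⟩
  · apply le_csInf
    · exact ⟨s + 1, PP s, isForcing_of_blue (blue_PP s), ncard_PP s⟩
    · rintro m ⟨S, hS, rfl⟩
      by_contra hcon
      push Not at hcon
      have hne : S ≠ univ := by
        rintro rfl
        rw [Set.ncard_univ, Nat.card_eq_fintype_card, Fintype.card_fin] at hcon
        omega
      obtain ⟨u, w, hf⟩ := hS.exists_force hne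
      have := (force_structure hs hf (by omega)).1
      omega

lemma isMin_PP (hs : 2 ≤ s) : IsMinForcing (gr s) (PP s) :=
  ⟨isForcing_of_blue (blue_PP s), by rw [ncard_PP, Zplus_gr hs]⟩

lemma blue_QQ_univ (s : ℕ) : blue (gr s) (QQ s) s = univ := by
  rw [eq_univ_iff_forall]
  intro y
  apply blue_QQ
  have := y.2
  omega

lemma isMin_QQ (hs : 2 ≤ s) : IsMinForcing (gr s) (QQ s) :=
  ⟨isForcing_of_blue (blue_QQ_univ s), by rw [ncard_QQ, Zplus_gr hs]⟩

lemma propTime_QQ (hs : 2 ≤ s) : propTime (gr s) (QQ s) = s := by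
  unfold propTime
  apply le_antisymm
  · exact Nat.sInf_le (blue_QQ_univ s)
  · apply le_csInf ⟨s, blue_QQ_univ s⟩
    intro t ht
    have hmem : (⟨2 * s, by omega⟩ : Fin (2 * s + 1)) ∈ blue (gr s) (QQ s) t := by
      rw [ht]; exact mem_univ _
    have := blue_ball (by omega) (QQ s) s 0 (by
      intro y hy hys
      have : (y : ℕ) ≤ s := hy
      omega) t _ hmem (by simp only; omega)
    simp only at this
    omega

lemma propTime_PP_le (s : ℕ) : propTime (gr s) (PP s) ≤ 1 := Nat.sInf_le (blue_PP s)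

/-- The propagation times `3 ≤ k < s/2` are not attained. -/
lemma no_propTime (hs : 2 ≤ s) {S : Set (Fin (2 * s + 1))} (hS : IsMinForcing (gr s) S) {k : ℕ}
    (hk3 : 3 ≤ k) (hk : 2 * k < s) : propTime (gr s) S ≠ k := by
  intro hpt
  obtain ⟨hSf, hScard⟩ := hS
  rw [Zplus_gr hs] at hScard
  have hne : S ≠ univ := by
    rintro rfl
    rw [Set.ncard_univ, Nat.card_eq_fintype_card, Fintype.card_fin] at hScard
    omega
  have hkuniv : blue (gr s) S k = univ := by
    have hnonempty : {t | blue (gr s) S t = univ}.Nonempty := exists_blue_of_isForcing hSf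
    have := Nat.sInf_mem hnonempty
    unfold propTime at hpt
    rw [hpt] at this
    exact this
  have h2 : blue (gr s) S 2 ≠ univ := by
    intro h
    have : propTime (gr s) S ≤ 2 := Nat.sInf_le h
    omega
  obtain ⟨u, w, hf⟩ := hSf.exists_force hne
  have hmem : ∀ y : Fin (2 * s + 1), y ∈ blue (gr s) S k := by
    rw [hkuniv]; exact fun y => mem_univ y
  rcases (force_structure hs hf (by omega)).2 with ⟨x, hx⟩ | hP | ⟨hu, hw, hpw⟩ | ⟨hu, hx⟩
  · have e1 := blue_ball (by omega) S x 0 hx k ⟨2 * s, by omega⟩ (hmem _) (by simp only; omega)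
    have e2 := blue_ball (by omega) S x 0 hx k ⟨s, by omega⟩ (hmem _) (by simp only; omega)
    simp only at e1 e2
    omega
  · apply h2
    have h1 : blue (gr s) S 1 = univ := blue_of_path (t := 0) hP
    have := blue_mono (G := gr s) S (show 1 ≤ 2 by omega)
    rw [h1] at this
    exact univ_subset_iff.mp this
  · apply h2
    apply blue_of_path (t := 1)
    intro y hy
    by_cases hyS : y ∈ S
    · exact Or.inl hyS
    · right
      rw [hpw y hy hyS]
      exact ⟨u, hf⟩
  · have e1 := blue_ball (by omega) S u 1 hx k ⟨2 * s, by omega⟩ (hmem _) (by simp only; omega)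
    have e2 := blue_ball (by omega) S u 1 hx k ⟨s, by omega⟩ (hmem _) (by simp only; omega)
    simp only at e1 e2
    omega

end Pool.Agent.Lib.MP_bfe17a_co
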